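import Mathlib
import Pool.Agent.Lib.MP_01f3ee_nt.Final

set_option autoImplicit false

namespace Pool.Agent.Results.MP_01f3ee_nt.LinearRelations

/-- `n ≥ 2` is exceptional: with `b = lcm(2,...,n)` and `a = ∑_{k=2}^n b/k`, the number `b` divides
`a + 1` or `a - 1`. -/
def Exceptional (n : ℕ) : Prop :=
  2 ≤ n ∧
      ((((Finset.Icc 2 n).lcm id : ℕ) : ℤ) ∣
          (∑ k ∈ Finset.Icc 2 n, ((((Finset.Icc 2 n).lcm id) / k : ℕ) : ℤ)) + 1 ∨
        (((Finset.Icc 2 n).lcm id : ℕ) : ℤ) ∣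
          (∑ k ∈ Finset.Icc 2 n, ((((Finset.Icc 2 n).lcm id) / k : ℕ) : ℤ)) - 1)

/-- For a fixed nonzero integer vector `ρ` with coordinate sum `0`: if `n_1, ..., n_r` are distinct
large exceptional integers with `log n_i ≤ (1 + 1/K) log n_j` for all `i, j`, and `T_i` is the
integer nearest to the harmonic number `H_{n_i}`, then `∑ ρ_i T_i ≠ 0`. -/
theorem result : ∀ (r : ℕ) (ρ : Fin r → ℤ), (∃ i, ρ i ≠ 0) → ∑ i, ρ i = 0 →
    ∃ K : ℕ, 1 ≤ K ∧ ∀ (n : Fin r → ℕ) (T : Fin r → ℤ), (∀ i, K ≤ n i) →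
      (∀ i, Exceptional (n i)) → (∀ i, |(harmonic (n i) : ℝ) - T i| ≤ 1 / 2) →
      Function.Injective n →
      (∀ i j, Real.log (n i) ≤ (1 + 1 / (K : ℝ)) * Real.log (n j)) → ∑ i, ρ i * T i ≠ 0 :=
  fun r ρ hρ hs => Pool.MP01f3ee.structure_thm r ρ hρ hs

end Pool.Agent.Results.MP_01f3ee_nt.LinearRelations
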