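import Mathlib
import Pool.Agent.Lib.MP_01f3ee_nt.Final

set_option autoImplicit false

namespace Pool.Agent.Results.MP_01f3ee_nt.NearIntegerCount

/-- For every `ε > 0` there are `K` and `C` such that for every real `α` and every `x ≥ 2` the number
of `n ≤ x` for which the harmonic number `H_n` is within `n^{-K}` of `α + ℤ` is at most
`C (log x)^ε`. -/
theorem result : ∀ ε : ℝ, 0 < ε → ∃ (K : ℕ) (C : ℝ), ∀ (α : ℝ) (x : ℕ), 2 ≤ x →
    (({n : ℕ | 1 ≤ n ∧ n ≤ x ∧ ∃ T : ℤ, |(harmonic n : ℝ) - α - T| ≤ 1 / (n : ℝ) ^ K} :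
      Set ℕ).ncard : ℝ) ≤ C * Real.log x ^ ε :=
  fun ε hε => Pool.MP01f3ee.near_any ε hε

end Pool.Agent.Results.MP_01f3ee_nt.NearIntegerCount
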