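import Mathlib
import Pool.Agent.Lib.MP_01f3ee_nt.Final

set_option autoImplicit false

namespace Pool.Agent.Results.MP_01f3ee_nt.ThinExceptional

/-- `n ≥ 2` is exceptional: with `b = lcm(2,...,n)` and `a = ∑_{k=2}^n b/k`, the number `b` divides
`a + 1` or `a - 1`. -/
def Exceptional (n : ℕ) : Prop :=
  2 ≤ n ∧
      ((((Finset.Icc 2 n).lcm id : ℕ) : ℤ) ∣
          (∑ k ∈ Finset.Icc 2 n, ((((Finset.Icc 2 n).lcm id) / k : ℕ) : ℤ)) + 1 ∨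
        (((Finset.Icc 2 n).lcm id : ℕ) : ℤ) ∣
          (∑ k ∈ Finset.Icc 2 n, ((((Finset.Icc 2 n).lcm id) / k : ℕ) : ℤ)) - 1)

/-- For every `ε > 0` the number of exceptional integers `n ≤ x` is `O((log x)^ε)`. -/
theorem result : ∀ ε : ℝ, 0 < ε → ∃ C : ℝ, ∀ x : ℕ, 2 ≤ x →
    (({n : ℕ | n ≤ x ∧ Exceptional n} : Set ℕ).ncard : ℝ) ≤ C * Real.log x ^ ε :=
  fun ε hε => Pool.MP01f3ee.exceptional_count ε hε

end Pool.Agent.Results.MP_01f3ee_nt.ThinExceptional
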